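import Mathlib
import Pool.Agent.Lib.MP_b2c03c_co.Defs
import Pool.Agent.Lib.MP_b2c03c_co.Final

/-!
# Box complexes of adjoint fractional powers of graphs: a counterexample

For `k = 7`, `ℓ = 5` and `G` the complete bipartite graph `K_{10,10}` minus a Hamiltonian cycle,
`|B(Γ_5(Ω_7(G)))|` and `|B(G)|` are not `ℤ₂`-homotopy equivalent, in fact not even homotopy
equivalent.
-/

namespace Pool.Agent.Results.MP_b2c03c_co.Disproof

open Pool.Agent.Lib.MP_b2c03c_co LoopGraph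

/-- There is a graph `G` without loops, with `20` vertices, such that for `ℓ = 5` and
`k = 7 = 2 · 3 + 1` the spaces `|B(Γ_ℓ(Ω_k(G)))|` and `|B(G)|` are not `ℤ₂`-homotopy equivalent;
they are not even homotopy equivalent. -/
theorem result : ∃ G : LoopGraph (ZMod 20), (∀ v, ¬ G.Adj v v) ∧
    ¬ Z2HomotopyEquivalent (boxSwap (Gam 5 (Om 3 G))) (boxSwap G) ∧
    ¬ Nonempty (ContinuousMap.HomotopyEquiv (BoxSpace (Gam 5 (Om 3 G))) (BoxSpace G)) := by
  refine ⟨UU, UU_loopless, ?_, ?_⟩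
  · rintro ⟨φ, ψ, -, -, ⟨F, -⟩, -⟩
    exact no_retract_UU φ ψ ⟨F⟩
  · rintro ⟨e⟩
    exact no_retract_UU e.toFun e.invFun e.left_inv

end Pool.Agent.Results.MP_b2c03c_co.Disproof
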